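import Pool.Agent.Helper41.SQC.Goals

/-!
Packet SQC-KERR (MP_bb32d1_al): `TH` of the kernel of the reduction.
-/

set_option autoImplicit false

namespace Pool.Agent.Helper23.SQC

noncomputable section

open Matrix Pool.Agent.Helper19.SQ Pool.Agent.Helper34.SQ Pool.Agent.Helper41.SQ
  Pool.Agent.Helper4.SQ Pool.Agent.Helper41.SQC

section KJ

variable {N l : ℕ} {q : ℂ} {B : Type} [CommRing B] [Algebra ℂ B]

/-- the ideal `J`. -/
def KJ (V : VD N l q) (p : Pr B) (aug : B →ₐ[ℂ] ℂ) : Ideal (FB B) where
  carrier := {a | ∀ x y : FB B, TH V p (x * a * y) ∈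
    (RingHom.ker aug • LinearMap.range (TH V p) : Submodule B _)}
  add_mem' := by
    intro a b ha hb x y
    have e : x * (a + b) * y = x * a * y + x * b * y := by rw [mul_add, add_mul]
    rw [e, map_add]
    exact Submodule.add_mem _ (ha x y) (hb x y)
  zero_mem' := by
    intro x y
    rw [mul_zero, zero_mul, map_zero]
    exact Submodule.zero_mem _
  smul_mem' := by
    intro c a ha x y
    have e : x * (c • a) * y = (x * c) * a * y := by
      rw [smul_eq_mul, mul_assoc x c a]
    rw [e]
    exact ha _ _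

theorem mem_KJ (V : VD N l q) (p : Pr B) (aug : B →ₐ[ℂ] ℂ) (a : FB B) :
    a ∈ KJ V p aug ↔ ∀ x y : FB B, TH V p (x * a * y) ∈
      (RingHom.ker aug • LinearMap.range (TH V p) : Submodule B _) := Iff.rfl

instance (V : VD N l q) (p : Pr B) (aug : B →ₐ[ℂ] ℂ) : (KJ V p aug).IsTwoSided where
  mul_mem_of_left := by
    intro a b ha
    rw [mem_KJ] at ha ⊢
    intro x y
    have e : x * (a * b) * y = x * a * (b * y) := by
      rw [← mul_assoc x a b, mul_assoc (x * a) b y]
    rw [e]
    exact ha _ _

/-- the quotient. -/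
abbrev KQ (V : VD N l q) (p : Pr B) (aug : B →ₐ[ℂ] ℂ) : Type := FB B ⧸ KJ V p aug

/-- the quotient map. -/
def kpi (V : VD N l q) (p : Pr B) (aug : B →ₐ[ℂ] ℂ) : FB B →ₐ[ℂ] KQ V p aug :=
  Ideal.Quotient.mkₐ ℂ (KJ V p aug)

theorem kpi_eq_iff (V : VD N l q) (p : Pr B) (aug : B →ₐ[ℂ] ℂ) (a b : FB B) :
    kpi V p aug a = kpi V p aug b ↔ a - b ∈ KJ V p aug :=
  Ideal.Quotient.eq

theorem kpi_eq_of_rep (V : VD N l q) (p : Pr B) (aug : B →ₐ[ℂ] ℂ) {a b : FB B}
    (h : ∀ lam, rep V p lam a = rep V p lam b) : kpi V p aug a = kpi V p aug b := by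
  rw [kpi_eq_iff, mem_KJ]
  intro x y
  have e : TH V p (x * (a - b) * y) = 0 := by
    funext z
    rw [TH_apply, map_mul, map_mul, map_sub, h, sub_self, mul_zero, zero_mul, zero_mul,
      Matrix.trace_zero]
    rfl
  rw [e]
  exact Submodule.zero_mem _

theorem kpi_algebraMap (V : VD N l q) (p : Pr B) (aug : B →ₐ[ℂ] ℂ) (b : B) :
    kpi V p aug (algebraMap B (FB B) b) = algebraMap ℂ (KQ V p aug) (aug b) := by
  have e1 : algebraMap ℂ (KQ V p aug) (aug b)
      = kpi V p aug (algebraMap B (FB B) (algebraMap ℂ B (aug b))) := by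
    rw [← IsScalarTower.algebraMap_apply ℂ B (FB B), AlgHom.commutes]
  rw [e1, kpi_eq_iff, mem_KJ]
  intro x y
  have e2 : x * (algebraMap B (FB B) b - algebraMap B (FB B) (algebraMap ℂ B (aug b))) * y
      = (b - algebraMap ℂ B (aug b)) • (x * y) := by
    rw [← map_sub, ← Algebra.commutes, mul_assoc, ← Algebra.smul_def]
  rw [e2, map_smul]
  refine Submodule.smul_mem_smul ?_ ⟨x * y, rfl⟩
  rw [RingHom.mem_ker, map_sub]
  have e3 : aug (algebraMap ℂ B (aug b)) = aug b := aug.commutes (aug b)
  rw [e3, sub_self]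

/-- `rep` as a map of `ℂ`-algebras. -/
def repC (V : VD N l q) (p : Pr B) (lam : Fin (N + 1) → ZMod l) :
    FB B →ₐ[ℂ] Matrix (EX N l) (EX N l) B := (rep V p lam).restrictScalars ℂ

theorem repC_apply (V : VD N l q) (p : Pr B) (lam : Fin (N + 1) → ZMod l) (a : FB B) :
    repC V p lam a = rep V p lam a := rfl

theorem repC_xE (V : VD N l q) (p : Pr B) (lam : Fin (N + 1) → ZMod l) (k : ℕ) :
    repC V p lam (xE B k) = zE V p.t p.t' lam k := by
  rw [repC_apply, rep, xE, FreeAlgebra.lift_ι_apply]; rfl

theorem repC_xF (V : VD N l q) (p : Pr B) (lam : Fin (N + 1) → ZMod l) (k : ℕ) :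
    repC V p lam (xF B k) = zF N l q B k := by
  rw [repC_apply, rep, xF, FreeAlgebra.lift_ι_apply]; rfl

theorem repC_xK (V : VD N l q) (p : Pr B) (lam : Fin (N + 1) → ZMod l) (k : ℕ) :
    repC V p lam (xK B k) = zK q B lam k := by
  rw [repC_apply, rep, xK, FreeAlgebra.lift_ι_apply]; rfl

theorem repC_alg (V : VD N l q) (p : Pr B) (lam : Fin (N + 1) → ZMod l) (b : B) :
    repC V p lam (algebraMap B (FB B) b) = algebraMap B _ b := by
  rw [repC_apply, AlgHom.commutes]

theorem kpi_rel [NeZero l] (hz : S_ZREP) (hD : Dl N l q) (hP : Par N l q) (V : VD N l q)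
    (aug : B →ₐ[ℂ] ℂ) (p : Pr B) (hκ : ∀ j, aug (p.κ j) = 1) :
    GlRel N l q (fun k => kpi V p aug (xE B k)) (fun k => kpi V p aug (xF B k))
      (fun k => kpi V p aug (xK B k)) := by
  have hT : ∀ lam : Fin (N + 1) → ZMod l,
      GlT N l q (fun i => algebraMap B (Matrix (EX N l) (EX N l) B) (p.t i))
      (fun i => algebraMap B (Matrix (EX N l) (EX N l) B) (p.t' i))
      (zE V p.t p.t' lam) (zF N l q B) (zK q B lam) := fun lam =>
    (hz N l q hD hP V B p.t p.t' p.tt lam).1
  have hPE : ∀ (lam : Fin (N + 1) → ZMod l) (d i : ℕ), rvA q (zE V p.t p.t' lam) d i ^ l = 0 :=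
    fun lam => (hz N l q hD hP V B p.t p.t' p.tt lam).2.1
  have key : ∀ a b : FB B, (∀ lam, repC V p lam a = repC V p lam b) →
      kpi V p aug a = kpi V p aug b := fun a b h => kpi_eq_of_rep V p aug h
  have hκi : ∀ j, aug (p.κi j) = 1 := by
    intro j
    have := congrArg aug (p.κκ j)
    rwa [map_mul, hκ, one_mul, map_one] at this
  have ht : ∀ j, kpi V p aug (algebraMap B (FB B) (p.t j)) = 1 := by
    intro j
    rw [kpi_algebraMap, Pr.t, map_mul, hκ, hκi, mul_one, map_one]
  have ht' : ∀ j, kpi V p aug (algebraMap B (FB B) (p.t' j)) = 1 := by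
    intro j
    rw [kpi_algebraMap, Pr.t', map_mul, hκ, hκi, mul_one, map_one]
  refine ⟨?_, ?_, ?_, ?_, ?_, ?_, ?_, ?_, ?_, ⟨?_, ?_, ?_⟩, ⟨?_, ?_, ?_⟩, ?_, ?_⟩
  · intro i hi
    have := key (xE B i) 0 (fun lam => by rw [repC_xE, map_zero, (hT lam).E_out i hi])
    rwa [map_zero] at this
  · intro i hi
    have := key (xF B i) 0 (fun lam => by rw [repC_xF, map_zero, (hT lam).F_out i hi])
    rwa [map_zero] at this
  · intro i hi
    have := key (xK B i) 1 (fun lam => by rw [repC_xK, map_one, (hT lam).K_out i hi])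
    rwa [map_one] at this
  · intro i j
    have := key (xK B i * xK B j) (xK B j * xK B i) (fun lam => by
      simp only [map_mul, repC_xK]; exact (hT lam).K_comm i j)
    simpa only [map_mul] using this
  · intro j
    have := key (xK B j ^ l) 1 (fun lam => by
      simp only [map_pow, map_one, repC_xK]; exact (hT lam).K_pow j)
    simpa only [map_pow, map_one] using this
  · intro j i
    have := key (xK B j * xE B i) (q ^ pr j i • (xE B i * xK B j)) (fun lam => by
      simp only [map_mul, map_smul, repC_xK, repC_xE]; exact (hT lam).KE j i)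
    simpa only [map_mul, map_smul] using this
  · intro j i
    have := key (xK B j * xF B i) (q ^ (-pr j i) • (xF B i * xK B j)) (fun lam => by
      simp only [map_mul, map_smul, repC_xK, repC_xF]; exact (hT lam).KF j i)
    simpa only [map_mul, map_smul] using this
  · intro i hi
    have := key (xE B i * xF B i - xF B i * xE B i)
      ((q - q⁻¹)⁻¹ • (algebraMap B (FB B) (p.t i) * (xK B i * xK B (i + 1) ^ (l - 1))
        - algebraMap B (FB B) (p.t' i) * (xK B i ^ (l - 1) * xK B (i + 1)))) (fun lam => by
      simp only [map_mul, map_smul, map_sub, map_pow, repC_xK, repC_xF, repC_xE, repC_alg]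
      exact (hT lam).EF i hi)
    simpa only [map_mul, map_smul, map_sub, map_pow, ht, ht', one_mul] using this
  · intro i j hij
    have := key (xE B i * xF B j) (xF B j * xE B i) (fun lam => by
      simp only [map_mul, repC_xE, repC_xF]; exact (hT lam).EF_ne i j hij)
    simpa only [map_mul] using this
  · intro i j hij
    have := key (xE B i * xE B j) (xE B j * xE B i) (fun lam => by
      simp only [map_mul, repC_xE]; exact (hT lam).sE.far i j hij)
    simpa only [map_mul] using this
  · intro i
    have := key (xE B i ^ 2 * xE B (i + 1) - (q + q⁻¹) • (xE B i * xE B (i + 1) * xE B i)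
      + xE B (i + 1) * xE B i ^ 2) 0 (fun lam => by
      simp only [map_mul, map_smul, map_sub, map_add, map_pow, map_zero, repC_xE]
      exact (hT lam).sE.s1 i)
    simpa only [map_mul, map_smul, map_sub, map_add, map_pow, map_zero] using this
  · intro i
    have := key (xE B (i + 1) ^ 2 * xE B i - (q + q⁻¹) • (xE B (i + 1) * xE B i * xE B (i + 1))
      + xE B i * xE B (i + 1) ^ 2) 0 (fun lam => by
      simp only [map_mul, map_smul, map_sub, map_add, map_pow, map_zero, repC_xE]
      exact (hT lam).sE.s2 i)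
    simpa only [map_mul, map_smul, map_sub, map_add, map_pow, map_zero] using this
  · intro i j hij
    have := key (xF B i * xF B j) (xF B j * xF B i) (fun lam => by
      simp only [map_mul, repC_xF]; exact (hT lam).sF.far i j hij)
    simpa only [map_mul] using this
  · intro i
    have := key (xF B i ^ 2 * xF B (i + 1) - (q + q⁻¹) • (xF B i * xF B (i + 1) * xF B i)
      + xF B (i + 1) * xF B i ^ 2) 0 (fun lam => by
      simp only [map_mul, map_smul, map_sub, map_add, map_pow, map_zero, repC_xF]
      exact (hT lam).sF.s1 i)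
    simpa only [map_mul, map_smul, map_sub, map_add, map_pow, map_zero] using this
  · intro i
    have := key (xF B (i + 1) ^ 2 * xF B i - (q + q⁻¹) • (xF B (i + 1) * xF B i * xF B (i + 1))
      + xF B i * xF B (i + 1) ^ 2) 0 (fun lam => by
      simp only [map_mul, map_smul, map_sub, map_add, map_pow, map_zero, repC_xF]
      exact (hT lam).sF.s2 i)
    simpa only [map_mul, map_smul, map_sub, map_add, map_pow, map_zero] using this
  · intro d i
    have := key (rvA q (xE B) d i ^ l) 0 (fun lam => by
      have e : (fun k => repC V p lam (xE B k)) = zE V p.t p.t' lam :=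
        funext fun k => repC_xE V p lam k
      rw [map_pow, map_zero, ← rvA_map, e]
      exact hPE lam d i)
    rw [rvA_map, ← map_pow, this, map_zero]
  · intro d i
    have := key (rvA q (xF B) d i ^ l) 0 (fun lam => by
      have e : (fun k => repC V p lam (xF B k)) = zF N l q B :=
        funext fun k => repC_xF V p lam k
      rw [map_pow, map_zero, ← rvA_map, e]
      exact (hT lam).pF d i)
    rw [rvA_map, ← map_pow, this, map_zero]

end KJ

theorem c_kerr (hz : S_ZREP) : S_KERR := by
  intro N l _ q hD hP V B _ _ aug p hκ a ha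
  have hG := kpi_rel hz hD hP V aug p hκ
  have key : ∀ x : FB B, liftA hG (red N l q aug x) = kpi V p aug x := by
    intro x
    induction x using FreeAlgebra.induction with
    | grade0 r =>
      rw [red_algebraMap, AlgHom.commutes, kpi_algebraMap]
    | grade1 g =>
      cases g with
      | E k =>
        have := red_E N l q aug k
        rw [xE] at this
        rw [this, liftA_E]; rfl
      | F k =>
        have := red_F N l q aug k
        rw [xF] at this
        rw [this, liftA_F]; rfl
      | K k =>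
        have := red_K N l q aug k
        rw [xK] at this
        rw [this, liftA_K]; rfl
    | mul x y hx hy => rw [map_mul, map_mul, map_mul, hx, hy]
    | add x y hx hy => rw [map_add, map_add, map_add, hx, hy]
  have h0 : kpi V p aug a = kpi V p aug 0 := by
    rw [← key a, ha, map_zero, map_zero]
  rw [kpi_eq_iff, sub_zero, mem_KJ] at h0
  have := h0 1 1
  rwa [one_mul, mul_one] at this

end

end Pool.Agent.Helper23.SQC
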